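import Pool.Agent.H732.RS.Final

/-!
# `N(X)` is not invariant under closed mappings for a paracompact p-space `X`

Negative answer, in ZFC, to the question Q1 of M. E. Rudin and Starbird: there are a paracompact
p-space `X` (a paracompact Tychonoff space with a perfect map `p` onto a completely metrizable
space `M`), a Tychonoff space `Y` with `X × Y` normal, and a closed continuous map `f` of `Y` onto
a Tychonoff space `Z` such that `X × Z` is not normal.
-/

set_option autoImplicit false

namespace Pool.Agent.Results.MP_8829b8_gt.Q1No

open TopologicalSpace

/-- There are Tychonoff spaces `X`, `Y`, `Z` such that `X` is paracompact and has a perfect map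
`p` onto a (completely) metrizable space `M`, the product `X × Y` is normal, `f` is a closed
continuous surjection of `Y` onto `Z`, and `X × Z` is not normal. -/
theorem result : ∃ (X Y Z M : Type) (_ : TopologicalSpace X) (_ : TopologicalSpace Y)
    (_ : TopologicalSpace Z) (_ : TopologicalSpace M) (p : X → M) (f : Y → Z),
    T35Space X ∧ T35Space Y ∧ T35Space Z ∧
    ParacompactSpace X ∧
    MetrizableSpace M ∧ IsCompletelyMetrizableSpace M ∧
    Continuous p ∧ IsClosedMap p ∧ Function.Surjective p ∧ (∀ m, IsCompact (p ⁻¹' {m})) ∧
    NormalSpace (X × Y) ∧
    Continuous f ∧ IsClosedMap f ∧ Function.Surjective f ∧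
    ¬ NormalSpace (X × Z) :=
  Pool.Agent.H732.RS.main

end Pool.Agent.Results.MP_8829b8_gt.Q1No
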